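import Mathlib
import Pool.Agent.H85R3.MinDefs
import Pool.Agent.Q185.RPn.Defs
import Pool.Agent.Q185.RPn.Fam

set_option autoImplicit false

namespace Pool.Agent.Results.MP_84c1ad_gt.VeroneseCounterexample

open Pool.Agent.H85R3.Minimal Pool.Agent.Q185.RPn

/-- For every `n ≥ 6` there is a compact connected `n`-dimensional embedded minimal submanifold `M`
without boundary of the unit sphere of `ℝ^((n+1)^2)`, that is of `S^(n+p)` with `p = n^2 + n`, and an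
index `j` such that `λ_(j+1) + ⋯ + λ_(j+n) > (n + 3) λ_j + λ_j ^ 2 / λ_(j+1) + n ^ 2`.
Here `0 ≤ λ_j ≤ n` and `λ_(j+1) = ⋯ = λ_(j+n) = 2 n (n + 3) / (n + 1)`. -/
theorem result : ∀ n : ℕ, 6 ≤ n → ∃ M : Set (E ((n + 1) * (n + 1))),
    IsClosedSubmanifold n M ∧ IsMinimalInSphere n M ∧
    ∃ j : ℕ, 0 ≤ eigenvalue n M j ∧ eigenvalue n M j ≤ n ∧
      (∀ k : ℕ, 1 ≤ k → k ≤ n →
        eigenvalue n M (j + k) = 2 * (n : ℝ) * ((n : ℝ) + 3) / ((n : ℝ) + 1)) ∧
      ((n : ℝ) + 3) * eigenvalue n M j +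
        (eigenvalue n M j) ^ 2 / eigenvalue n M (j + 1) + (n : ℝ) ^ 2 <
        ∑ k ∈ Finset.Icc 1 n, eigenvalue n M (j + k) := by
  intro n h6
  have hn : 1 ≤ n := by omega
  exact ⟨RP n, isClosedSubmanifold_RP hn, isMinimal_RP hn, jj n, eigenvalue_jj_nonneg hn,
    eigenvalue_jj hn, fun k h1 h2 => eigenvalue_above hn h1 h2, violation h6⟩

end Pool.Agent.Results.MP_84c1ad_gt.VeroneseCounterexample
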